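import Pool.Agent.V8H90.LG.Top
import Pool.Agent.W602.GT.Orb

/-!
Closed subvarieties of the products of quasi-projective varieties over projective space and of tori:
polynomials, weights, specialisation.
-/

set_option autoImplicit false
set_option linter.unusedSectionVars false

namespace Pool.Agent.V8H90.TP

open MvPolynomial Pool.Agent.W601.SM Pool.Agent.W601.PH Pool.Agent.V8H90.LG

variable {N n r : ℕ}

/-- the coordinates of `P^N`, `P^n`, and of the torus -/
abbrev Ix (N n r : ℕ) : Type := (Fin (N + 1) ⊕ Fin (n + 1)) ⊕ Fin r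

/-- the polynomials in the coordinates of `P^N`, `P^n`, and of the torus `G_m^r` -/
abbrev Tri (N n r : ℕ) : Type := MvPolynomial (Ix N n r) ℂ

/-- the value of a polynomial at a point with coordinates in the field `K` -/
noncomputable def evT {K : Type} [Field K] [Algebra ℂ K] (z : Fin (N + 1) → K)
    (b : Fin (n + 1) → K) (t : Fin r → K) (P : Tri N n r) : K :=
  aeval (Sum.elim (Sum.elim z b) t) P

/-- `P` is homogeneous in the coordinates of `P^N`, and in those of `P^n` (its coefficients are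
polynomials in the coordinates of the torus). -/
def TriHom (P : Tri N n r) : Prop := ∃ c d : ℕ, ∀ m ∈ P.support,
  ∑ i, m (Sum.inl (Sum.inl i)) = c ∧ ∑ j, m (Sum.inl (Sum.inr j)) = d

section

variable {K : Type} [Field K] [Algebra ℂ K] {z : Fin (N + 1) → K} {b : Fin (n + 1) → K}
  {t : Fin r → K}

theorem evT_mul (P Q : Tri N n r) : evT z b t (P * Q) = evT z b t P * evT z b t Q := map_mul _ _ _

theorem evT_add (P Q : Tri N n r) : evT z b t (P + Q) = evT z b t P + evT z b t Q := map_add _ _ _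

theorem evT_sum {ι : Type*} (s : Finset ι) (f : ι → Tri N n r) :
    evT z b t (∑ i ∈ s, f i) = ∑ i ∈ s, evT z b t (f i) := map_sum _ _ _

theorem evT_prod {ι : Type*} (s : Finset ι) (f : ι → Tri N n r) :
    evT z b t (∏ i ∈ s, f i) = ∏ i ∈ s, evT z b t (f i) := map_prod _ _ _

/-- the value of a monomial -/
noncomputable def mon (z : Fin (N + 1) → K) (b : Fin (n + 1) → K) (t : Fin r → K)
    (m : Ix N n r →₀ ℕ) : K := ∏ x, Sum.elim (Sum.elim z b) t x ^ m x

theorem mon_eq (m : Ix N n r →₀ ℕ) : mon z b t m = (∏ i, z i ^ m (Sum.inl (Sum.inl i))) *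
    (∏ j, b j ^ m (Sum.inl (Sum.inr j))) * ∏ j, t j ^ m (Sum.inr j) := by
  unfold mon
  rw [Fintype.prod_sum_type, Fintype.prod_sum_type]
  rfl

theorem evT_monomial (m : Ix N n r →₀ ℕ) (a : ℂ) :
    evT z b t (monomial m a) = algebraMap ℂ K a * mon z b t m := by
  unfold evT mon
  rw [aeval_monomial, Finsupp.prod_fintype _ _ (fun j => pow_zero _)]

theorem evT_eq (P : Tri N n r) : evT z b t P =
    ∑ m ∈ P.support, algebraMap ℂ K (P.coeff m) * mon z b t m := by
  conv_lhs => rw [P.as_sum]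
  rw [evT_sum]
  exact Finset.sum_congr rfl fun m _ => evT_monomial m _

theorem TriHom.smul {P : Tri N n r} (h : TriHom P) : ∃ c d : ℕ, ∀ (α β : K)
    (z : Fin (N + 1) → K) (b : Fin (n + 1) → K) (t : Fin r → K),
    evT (α • z) (β • b) t P = α ^ c * β ^ d * evT z b t P := by
  obtain ⟨c, d, h⟩ := h
  refine ⟨c, d, fun α β z b t => ?_⟩
  rw [evT_eq, evT_eq, Finset.mul_sum]
  refine Finset.sum_congr rfl fun m hm => ?_
  obtain ⟨h1, h2⟩ := h m hm
  rw [mon_eq, mon_eq]
  simp only [Pi.smul_apply, smul_eq_mul, mul_pow, Finset.prod_mul_distrib,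
    Finset.prod_pow_eq_pow_sum]
  rw [h1, h2]
  ring

theorem TriHom.one : TriHom (1 : Tri N n r) := by
  refine ⟨0, 0, fun m hm => ?_⟩
  have h1 : m = 0 := by
    by_contra hne
    rw [mem_support_iff, coeff_one, if_neg (Ne.symm hne)] at hm
    exact hm rfl
  subst h1
  simp

theorem TriHom.mul {P Q : Tri N n r} (hP : TriHom P) (hQ : TriHom Q) : TriHom (P * Q) := by
  classical
  obtain ⟨c, d, h⟩ := hP
  obtain ⟨c', d', h'⟩ := hQ
  refine ⟨c + c', d + d', fun m hm => ?_⟩
  have h1 := support_mul P Q hm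
  rw [Finset.mem_add] at h1
  obtain ⟨m1, hm1, m2, hm2, rfl⟩ := h1
  obtain ⟨g1, g2⟩ := h m1 hm1
  obtain ⟨g3, g4⟩ := h' m2 hm2
  simp only [Finsupp.add_apply, Finset.sum_add_distrib]
  exact ⟨by rw [g1, g3], by rw [g2, g4]⟩

theorem TriHom.prod {ι : Type*} (s : Finset ι) {f : ι → Tri N n r} (h : ∀ i ∈ s, TriHom (f i)) :
    TriHom (∏ i ∈ s, f i) := by
  classical
  induction s using Finset.induction_on with
  | empty => rw [Finset.prod_empty]; exact TriHom.one
  | insert a s ha ih =>
    rw [Finset.prod_insert ha]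
    exact (h a (Finset.mem_insert_self a s)).mul
      (ih fun i hi => h i (Finset.mem_insert_of_mem hi))

/-- the part of a polynomial with the monomials in `S` -/
noncomputable def psum (S : Finset (Ix N n r →₀ ℕ)) (P : Tri N n r) : Tri N n r :=
  ∑ m ∈ S, monomial m (P.coeff m)

theorem evT_psum (S : Finset (Ix N n r →₀ ℕ)) (P : Tri N n r) : evT z b t (psum S P) =
    ∑ m ∈ S, algebraMap ℂ K (P.coeff m) * mon z b t m := by
  unfold psum
  rw [evT_sum]
  exact Finset.sum_congr rfl fun m _ => evT_monomial m _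

theorem TriHom.psum {P : Tri N n r} (h : TriHom P) {S : Finset (Ix N n r →₀ ℕ)}
    (hS : S ⊆ P.support) : TriHom (psum S P) := by
  classical
  obtain ⟨c, d, h⟩ := h
  refine ⟨c, d, fun m hm => h m (hS ?_)⟩
  unfold TP.psum at hm
  rw [mem_support_iff, coeff_sum] at hm
  by_contra hmS
  apply hm
  refine Finset.sum_eq_zero fun m' hm' => ?_
  rw [coeff_monomial, if_neg]
  rintro rfl
  exact hmS hm'

/-- the weight of a monomial with respect to a one-parameter subgroup of the torus -/
def wt (c : Fin r → ℤ) (m : Ix N n r →₀ ℕ) : ℤ := ∑ j, (m (Sum.inr j) : ℤ) * c j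

/-- the component of weight `k` -/
noncomputable def wcomp (c : Fin r → ℤ) (k : ℤ) (P : Tri N n r) : Tri N n r :=
  psum (P.support.filter fun m => wt c m = k) P

theorem TriHom.wcomp {P : Tri N n r} (h : TriHom P) (c : Fin r → ℤ) (k : ℤ) :
    TriHom (wcomp c k P) := h.psum (Finset.filter_subset _ _)

theorem evT_wcomp (c : Fin r → ℤ) (k : ℤ) (P : Tri N n r) : evT z b t (wcomp c k P) =
    ∑ m ∈ P.support.filter (fun m => wt c m = k), algebraMap ℂ K (P.coeff m) * mon z b t m :=
  evT_psum _ _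

/-- the weights which occur in `P` -/
def wts (c : Fin r → ℤ) (P : Tri N n r) : Finset ℤ := P.support.image (wt c)

/-- sums over the weights -/
theorem sum_wts (c : Fin r → ℤ) (P : Tri N n r) (f : ℤ → K) :
    ∑ m ∈ P.support, algebraMap ℂ K (P.coeff m) * (f (wt c m) * mon z b t m) =
      ∑ k ∈ wts c P, f k * evT z b t (wcomp c k P) := by
  classical
  rw [← Finset.sum_fiberwise_of_maps_to (g := wt c) (t := wts c P)
    (fun m hm => Finset.mem_image_of_mem _ hm)]
  refine Finset.sum_congr rfl fun k _ => ?_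
  rw [evT_wcomp, Finset.mul_sum]
  refine Finset.sum_congr rfl fun m hm => ?_
  rw [(Finset.mem_filter.1 hm).2]
  ring

theorem sum_wcomp (c : Fin r → ℤ) (P : Tri N n r) :
    evT z b t P = ∑ k ∈ wts c P, evT z b t (wcomp c k P) := by
  have h := sum_wts (z := z) (b := b) (t := t) c P (fun _ => 1)
  simp only [one_mul] at h
  rw [← h, evT_eq]

theorem wcomp_not {c : Fin r → ℤ} {k : ℤ} {P : Tri N n r} (hk : k ∉ wts c P) :
    evT z b t (wcomp c k P) = 0 := by
  rw [evT_wcomp, Finset.sum_eq_zero]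
  intro m hm
  exact absurd (Finset.mem_image.mpr ⟨m, (Finset.mem_filter.1 hm).1, (Finset.mem_filter.1 hm).2⟩) hk

/-- the action of the one-parameter subgroup -/
def act (c : Fin r → ℤ) (τ : K) (t : Fin r → K) : Fin r → K := fun j => τ ^ c j * t j

theorem mon_act (c : Fin r → ℤ) {τ : K} (hτ : τ ≠ 0) (m : Ix N n r →₀ ℕ) :
    mon z b (act c τ t) m = τ ^ wt c m * mon z b t m := by
  rw [mon_eq, mon_eq]
  have h1 : ∏ j, act c τ t j ^ m (Sum.inr j) = τ ^ wt c m * ∏ j, t j ^ m (Sum.inr j) := by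
    unfold act wt
    simp only [mul_pow, Finset.prod_mul_distrib]
    congr 1
    have h4 : ∀ s : Finset (Fin r), τ ^ (∑ j ∈ s, (m (Sum.inr j) : ℤ) * c j) =
        ∏ j ∈ s, (τ ^ c j) ^ m (Sum.inr j) := by
      intro s
      induction s using Finset.induction_on with
      | empty => simp
      | insert a s ha ih =>
        rw [Finset.sum_insert ha, Finset.prod_insert ha, zpow_add₀ hτ, ih,
          mul_comm (m (Sum.inr a) : ℤ), zpow_mul, zpow_natCast]
    exact (h4 _).symm
  rw [h1]
  ring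

theorem evT_act (c : Fin r → ℤ) {τ : K} (hτ : τ ≠ 0) (P : Tri N n r) :
    evT z b (act c τ t) P = ∑ k ∈ wts c P, τ ^ k * evT z b t (wcomp c k P) := by
  rw [← sum_wts c P (fun k => τ ^ k), evT_eq]
  exact Finset.sum_congr rfl fun m _ => by rw [mon_act c hτ]

theorem act_act (c : Fin r → ℤ) {τ τ' : K} (t : Fin r → K) :
    act c τ' (act c τ t) = act c (τ' * τ) t := by
  funext j
  unfold act
  rw [mul_zpow]
  ring

theorem act_one (c : Fin r → ℤ) (t : Fin r → K) : act c 1 t = t := by
  funext j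
  unfold act
  rw [one_zpow, one_mul]

theorem act_ne {c : Fin r → ℤ} {τ : K} (hτ : τ ≠ 0) {t : Fin r → K} (ht : ∀ j, t j ≠ 0) (j : Fin r) :
    act c τ t j ≠ 0 := mul_ne_zero (zpow_ne_zero _ hτ) (ht j)

end

/-- if the values at infinitely many points of the orbit vanish, the components vanish -/
theorem wcomp_zero {c : Fin r → ℤ} {P : Tri N n r} {u : Fin (N + 1) → ℂ} {v : Fin (n + 1) → ℂ}
    {s : Fin r → ℂ} (h : ∀ τ : ℂ, τ ≠ 0 → evT u v (act c τ s) P = 0) (k : ℤ) :
    evT u v s (wcomp c k P) = 0 := by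
  classical
  by_cases hk : k ∈ wts c P
  swap
  · exact wcomp_not hk
  obtain ⟨M, hM⟩ : ∃ M : ℕ, ∀ l ∈ wts c P, 0 ≤ l + M := by
    refine ⟨∑ l ∈ wts c P, l.natAbs, fun l hl => ?_⟩
    have h1 := Finset.single_le_sum (f := fun l : ℤ => l.natAbs) (fun _ _ => Nat.zero_le _) hl
    have h2 : ((l.natAbs : ℕ) : ℤ) ≤ ((∑ l ∈ wts c P, l.natAbs : ℕ) : ℤ) := by exact_mod_cast h1
    have h3 := Int.le_natAbs (a := -l)
    rw [Int.natAbs_neg] at h3
    linarith
  set R : Polynomial ℂ := ∑ l ∈ wts c P, Polynomial.C (evT u v s (wcomp c l P)) *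
    Polynomial.X ^ (l + M).toNat with hR
  have hR0 : R = 0 := by
    apply Polynomial.eq_zero_of_infinite_isRoot
    refine Set.Infinite.mono (s := {τ : ℂ | τ ≠ 0}) (fun τ hτ => ?_) ?_
    · change Polynomial.eval τ R = 0
      have h1 := h τ hτ
      rw [evT_act c hτ] at h1
      rw [hR, Polynomial.eval_finsetSum]
      simp only [Polynomial.eval_mul, Polynomial.eval_C, Polynomial.eval_pow, Polynomial.eval_X]
      have h2 : ∀ l ∈ wts c P, evT u v s (wcomp c l P) * τ ^ (l + M).toNat =
          τ ^ (M : ℤ) * (τ ^ l * evT u v s (wcomp c l P)) := by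
        intro l hl
        have h3 : τ ^ (l + M).toNat = τ ^ (l + M) := by
          conv_rhs => rw [← Int.toNat_of_nonneg (hM l hl)]
          rw [zpow_natCast]
        rw [h3, zpow_add₀ hτ]
        ring
      rw [Finset.sum_congr rfl h2, ← Finset.mul_sum, h1, mul_zero]
    · exact Set.Infinite.mono (s := Set.univ \ {(0 : ℂ)}) (fun τ hτ => by simpa using hτ)
        (Set.infinite_univ.sdiff (Set.finite_singleton 0))
  have h3 := congrArg (fun q => q.coeff (k + M).toNat) hR0
  simp only [hR, Polynomial.finsetSum_coeff, Polynomial.coeff_C_mul, Polynomial.coeff_X_pow,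
    Polynomial.coeff_zero] at h3
  rw [Finset.sum_eq_single k] at h3
  · rwa [if_pos rfl, mul_one] at h3
  · intro l hl hlk
    rw [if_neg, mul_zero]
    intro h4
    have h5 := hM l hl
    have h6 := hM k hk
    omega
  · intro h4
    exact absurd hk h4

end Pool.Agent.V8H90.TP
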