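import Pool.Agent.V8H90.TP.Poly

/-!
Closed subvarieties of the products of quasi-projective varieties over projective space and of tori:
generic points and points.
-/

set_option autoImplicit false
set_option linter.unusedSectionVars false

namespace Pool.Agent.V8H90.TP

open MvPolynomial Pool.Agent.W601.SM Pool.Agent.W601.PH Pool.Agent.V8H90.LG

variable {N n r : ℕ}

/-- `K` is the function field, and `(z, b, t)` the generic point, of a closed subvariety of
dimension `w` of the product of `X - D` and of the torus `G_m^r`. -/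
structure SubProd (X D : BiSet N n) (K : Type) [Field K] [Algebra ℂ K] (w : ℕ)
    (z : Fin (N + 1) → K) (b : Fin (n + 1) → K) (t : Fin r → K) : Prop where
  z0 : z ≠ 0
  b0 : b ≠ 0
  t0 : ∀ j, t j ≠ 0
  mem : ∀ P ∈ X.I, evK z b P = 0
  off : ∃ P ∈ D.I, evK z b P ≠ 0
  dim : Algebra.trdeg ℂ K = w
  gen : IntermediateField.adjoin ℂ ({f | ∃ i j, z j ≠ 0 ∧ f = z i / z j} ∪
    ({f | ∃ i j, b j ≠ 0 ∧ f = b i / b j} ∪ Set.range t)) = ⊤

/-- the points of the closed subvariety of the product of `X - D` and of the torus with the generic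
point `(z, b, t)` -/
structure InW (X D : BiSet N n) {K : Type} [Field K] [Algebra ℂ K]
    (z : Fin (N + 1) → K) (b : Fin (n + 1) → K) (t : Fin r → K)
    (u : Fin (N + 1) → ℂ) (v : Fin (n + 1) → ℂ) (s : Fin r → ℂ) : Prop where
  mem : QMem X D u v
  s0 : ∀ j, s j ≠ 0
  eq : ∀ P : Tri N n r, TriHom P → evT z b t P = 0 → evT u v s P = 0

section

variable {K : Type} [Field K] [Algebra ℂ K] {z : Fin (N + 1) → K} {b : Fin (n + 1) → K}
  {t : Fin r → K}

theorem evT_inl (P : BiPoly N n) : evT z b t (rename Sum.inl P) = evK z b P := by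
  unfold evT evK
  rw [aeval_rename]
  rfl

theorem evT_inl' {u : Fin (N + 1) → ℂ} {v : Fin (n + 1) → ℂ} {s : Fin r → ℂ} (P : BiPoly N n) :
    evT u v s (rename Sum.inl P) = ev2 u v P := by
  unfold evT ev2
  rw [aeval_rename, ← coe_aeval_eq_eval, RingHom.coe_coe]
  rfl

theorem norm_eq (z : Fin (N + 1) → K) (i0 : Fin (N + 1)) : (fun i => z i / z i0) = (z i0)⁻¹ • z := by
  funext i
  rw [Pi.smul_apply, smul_eq_mul, div_eq_inv_mul]

/-- the values at normalised coordinates -/
theorem TriHom.norm {P : Tri N n r} (hP : TriHom P) {i0 : Fin (N + 1)} {j0 : Fin (n + 1)}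
    (hi : z i0 ≠ 0) (hj : b j0 ≠ 0) :
    evT (fun i => z i / z i0) (fun j => b j / b j0) t P = 0 ↔ evT z b t P = 0 := by
  obtain ⟨c, d, h⟩ := hP.smul (K := K)
  rw [norm_eq z i0, norm_eq b j0, h]
  have h1 : (z i0)⁻¹ ^ c * (b j0)⁻¹ ^ d ≠ 0 :=
    mul_ne_zero (pow_ne_zero _ (inv_ne_zero hi)) (pow_ne_zero _ (inv_ne_zero hj))
  exact ⟨fun h2 => (mul_eq_zero.mp h2).resolve_left h1, fun h2 => by rw [h2, mul_zero]⟩

theorem evK_norm {P : BiPoly N n} (hP : BiHom P) {i0 : Fin (N + 1)} {j0 : Fin (n + 1)}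
    (hi : z i0 ≠ 0) (hj : b j0 ≠ 0) :
    evK (fun i => z i / z i0) (fun j => b j / b j0) P = 0 ↔ evK z b P = 0 := by
  obtain ⟨c, d, h⟩ := BiHom.evK (K := K) hP
  rw [norm_eq z i0, norm_eq b j0, h]
  have h1 : (z i0)⁻¹ ^ c * (b j0)⁻¹ ^ d ≠ 0 :=
    mul_ne_zero (pow_ne_zero _ (inv_ne_zero hi)) (pow_ne_zero _ (inv_ne_zero hj))
  exact ⟨fun h2 => (mul_eq_zero.mp h2).resolve_left h1, fun h2 => by rw [h2, mul_zero]⟩

theorem exists_ne_coord {m : ℕ} {x : Fin m → K} (h : x ≠ 0) : ∃ i, x i ≠ 0 := by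
  by_contra hc
  push Not at hc
  exact h (funext hc)

/-- **Specialisation.** -/
theorem SubProd.special {X D : BiSet N n} {w : ℕ} (h : SubProd X D K w z b t)
    {i0 : Fin (N + 1)} {j0 : Fin (n + 1)} (hi : z i0 ≠ 0) (hj : b j0 ≠ 0) {Q : Tri N n r}
    (hQ : evT (fun i => z i / z i0) (fun j => b j / b j0) t Q ≠ 0) :
    ∃ u v s, InW X D z b t u v s ∧ u i0 = 1 ∧ v j0 = 1 ∧ evT u v s Q ≠ 0 ∧
      ∀ A : Tri N n r, evT (fun i => z i / z i0) (fun j => b j / b j0) t A = 0 →
        evT u v s A = 0 := by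
  classical
  obtain ⟨P0, hP0, hP0e⟩ := h.off
  set z' : Fin (N + 1) → K := fun i => z i / z i0 with hz'
  set b' : Fin (n + 1) → K := fun j => b j / b j0 with hb'
  let H : Tri N n r := Q * (rename Sum.inl P0 * ∏ j, MvPolynomial.X (Sum.inr j))
  have hH : aeval (Sum.elim (Sum.elim z' b') t) H ≠ 0 := by
    change evT z' b' t H ≠ 0
    rw [evT_mul, evT_mul, evT_inl, evT_prod]
    refine mul_ne_zero hQ (mul_ne_zero ?_ (Finset.prod_ne_zero_iff.mpr fun j _ => ?_))
    · exact fun h0 => hP0e ((evK_norm (D.hom P0 hP0) hi hj).mp h0)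
    · unfold evT
      rw [aeval_X]
      exact h.t0 j
  obtain ⟨x, hx, hx0⟩ := Pool.Agent.W602.GT.specialise _ H hH
  set u : Fin (N + 1) → ℂ := fun i => x (Sum.inl (Sum.inl i)) with hu
  set v : Fin (n + 1) → ℂ := fun j => x (Sum.inl (Sum.inr j)) with hv
  set s : Fin r → ℂ := fun j => x (Sum.inr j) with hs
  have hxe : x = Sum.elim (Sum.elim u v) s := by
    funext y
    rcases y with (y | y) | y <;> rfl
  have hA : ∀ A : Tri N n r, evT z' b' t A = 0 → evT u v s A = 0 := by
    intro A hA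
    have := hx0 A hA
    rw [hxe] at this
    exact this
  have hx' : evT u v s H ≠ 0 := by
    unfold evT
    rw [← hxe]
    exact hx
  rw [evT_mul, evT_mul, evT_inl', evT_prod] at hx'
  have h1 := left_ne_zero_of_mul hx'
  have h2 := left_ne_zero_of_mul (right_ne_zero_of_mul hx')
  have h3 := right_ne_zero_of_mul (right_ne_zero_of_mul hx')
  have hu1 : u i0 = 1 := by
    have := hA (MvPolynomial.X (Sum.inl (Sum.inl i0)) - 1) (by
      unfold evT
      rw [map_sub, aeval_X, map_one, Sum.elim_inl, Sum.elim_inl, hz']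
      simp only
      rw [div_self hi, sub_self])
    unfold evT at this
    rw [map_sub, aeval_X, map_one, Sum.elim_inl, Sum.elim_inl] at this
    exact sub_eq_zero.mp this
  have hv1 : v j0 = 1 := by
    have := hA (MvPolynomial.X (Sum.inl (Sum.inr j0)) - 1) (by
      unfold evT
      rw [map_sub, aeval_X, map_one, Sum.elim_inl, Sum.elim_inr, hb']
      simp only
      rw [div_self hj, sub_self])
    unfold evT at this
    rw [map_sub, aeval_X, map_one, Sum.elim_inl, Sum.elim_inr] at this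
    exact sub_eq_zero.mp this
  have hu0 : u ≠ 0 := by
    intro h0
    rw [h0] at hu1
    exact zero_ne_one hu1
  have hv0 : v ≠ 0 := by
    intro h0
    rw [h0] at hv1
    exact zero_ne_one hv1
  refine ⟨u, v, s, ⟨⟨⟨hu0, hv0, fun P hP => ?_⟩, fun hD => h2 (hD.2.2 P0 hP0)⟩, fun j => ?_,
    fun P hP hP0 => hA P ((hP.norm hi hj).mpr hP0)⟩, hu1, hv1, h1, hA⟩
  · rw [← evT_inl' (r := r) (s := s)]
    apply hA
    rw [evT_inl]
    exact mem_norm h.mem P hP
  · have := Finset.prod_ne_zero_iff.mp h3 j (Finset.mem_univ j)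
    unfold evT at this
    rwa [aeval_X, Sum.elim_inr] at this

theorem mon_add (m m' : Ix N n r →₀ ℕ) : mon z b t (m + m') = mon z b t m * mon z b t m' := by
  unfold mon
  rw [← Finset.prod_mul_distrib]
  exact Finset.prod_congr rfl fun x _ => by rw [Finsupp.add_apply, pow_add]

theorem mon_single (x : Ix N n r) (e : ℕ) : mon z b t (Finsupp.single x e) =
    Sum.elim (Sum.elim z b) t x ^ e := by
  classical
  unfold mon
  rw [Finset.prod_eq_single x]
  · rw [Finsupp.single_eq_same]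
  · intro y _ hy
    rw [Finsupp.single_eq_of_ne hy, pow_zero]
  · intro h
    exact absurd (Finset.mem_univ x) h

theorem mon_smul (α β : K) (m : Ix N n r →₀ ℕ) : mon (α • z) (β • b) t m =
    α ^ (∑ i, m (Sum.inl (Sum.inl i))) * β ^ (∑ j, m (Sum.inl (Sum.inr j))) * mon z b t m := by
  rw [mon_eq, mon_eq]
  simp only [Pi.smul_apply, smul_eq_mul, mul_pow, Finset.prod_mul_distrib,
    Finset.prod_pow_eq_pow_sum]
  ring

end

/-- **Homogenisation.** -/
theorem exists_homog (A : Tri N n r) (i0 : Fin (N + 1)) (j0 : Fin (n + 1)) :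
    ∃ (P : Tri N n r) (c d : ℕ), TriHom P ∧ ∀ (K : Type) [Field K] [Algebra ℂ K]
      (z : Fin (N + 1) → K) (b : Fin (n + 1) → K) (t : Fin r → K), z i0 ≠ 0 → b j0 ≠ 0 →
      evT z b t P = z i0 ^ c * b j0 ^ d *
        evT (fun i => z i / z i0) (fun j => b j / b j0) t A := by
  classical
  set d1 : (Ix N n r →₀ ℕ) → ℕ := fun m => ∑ i, m (Sum.inl (Sum.inl i)) with hd1
  set d2 : (Ix N n r →₀ ℕ) → ℕ := fun m => ∑ j, m (Sum.inl (Sum.inr j)) with hd2
  set c := ∑ m ∈ A.support, d1 m with hc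
  set d := ∑ m ∈ A.support, d2 m with hd
  have hle1 : ∀ m ∈ A.support, d1 m ≤ c := fun m hm =>
    Finset.single_le_sum (f := d1) (fun _ _ => Nat.zero_le _) hm
  have hle2 : ∀ m ∈ A.support, d2 m ≤ d := fun m hm =>
    Finset.single_le_sum (f := d2) (fun _ _ => Nat.zero_le _) hm
  let g : (Ix N n r →₀ ℕ) → (Ix N n r →₀ ℕ) := fun m =>
    m + Finsupp.single (Sum.inl (Sum.inl i0)) (c - d1 m) +
      Finsupp.single (Sum.inl (Sum.inr j0)) (d - d2 m)
  have hg1 : ∀ m ∈ A.support, d1 (g m) = c := by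
    intro m hm
    simp only [hd1, g, Finsupp.add_apply, Finset.sum_add_distrib]
    have h1 : ∑ i, (Finsupp.single (Sum.inl (Sum.inl i0) : Ix N n r) (c - ∑ i, m (Sum.inl (Sum.inl i))))
        (Sum.inl (Sum.inl i)) = c - d1 m := by
      rw [Finset.sum_eq_single i0]
      · rw [Finsupp.single_eq_same]
      · intro i _ hi
        rw [Finsupp.single_eq_of_ne]
        intro h
        exact hi (Sum.inl_injective (Sum.inl_injective h))
      · intro h
        exact absurd (Finset.mem_univ _) h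
    have h2 : ∑ i, (Finsupp.single (Sum.inl (Sum.inr j0) : Ix N n r) (d - d2 m))
        (Sum.inl (Sum.inl i)) = 0 := by
      refine Finset.sum_eq_zero fun i _ => ?_
      rw [Finsupp.single_eq_of_ne]
      simp
    rw [h1, h2]
    have := hle1 m hm
    simp only [hd1] at this ⊢
    omega
  have hg2 : ∀ m ∈ A.support, d2 (g m) = d := by
    intro m hm
    simp only [hd2, g, Finsupp.add_apply, Finset.sum_add_distrib]
    have h1 : ∑ j, (Finsupp.single (Sum.inl (Sum.inr j0) : Ix N n r) (d - ∑ j, m (Sum.inl (Sum.inr j))))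
        (Sum.inl (Sum.inr j)) = d - d2 m := by
      rw [Finset.sum_eq_single j0]
      · rw [Finsupp.single_eq_same]
      · intro i _ hi
        rw [Finsupp.single_eq_of_ne]
        intro h
        exact hi (Sum.inr_injective (Sum.inl_injective h))
      · intro h
        exact absurd (Finset.mem_univ _) h
    have h2 : ∑ j, (Finsupp.single (Sum.inl (Sum.inl i0) : Ix N n r) (c - d1 m))
        (Sum.inl (Sum.inr j)) = 0 := by
      refine Finset.sum_eq_zero fun i _ => ?_
      rw [Finsupp.single_eq_of_ne]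
      simp
    rw [h1, h2]
    have := hle2 m hm
    simp only [hd2] at this ⊢
    omega
  refine ⟨∑ m ∈ A.support, monomial (g m) (A.coeff m), c, d, ⟨c, d, fun m' hm' => ?_⟩,
    fun K _ _ z b t hz hb => ?_⟩
  · rw [mem_support_iff, coeff_sum] at hm'
    obtain ⟨m, hm, hne⟩ := Finset.exists_ne_zero_of_sum_ne_zero hm'
    rw [coeff_monomial] at hne
    have h1 : g m = m' := by
      by_contra hcon
      rw [if_neg hcon] at hne
      exact hne rfl
    rw [← h1]
    exact ⟨hg1 m hm, hg2 m hm⟩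
  · rw [evT_sum, norm_eq z i0, norm_eq b j0, evT_eq, Finset.mul_sum]
    refine Finset.sum_congr rfl fun m hm => ?_
    rw [evT_monomial, mon_smul]
    simp only [g]
    rw [mon_add, mon_add, mon_single, mon_single]
    simp only [Sum.elim_inl, Sum.elim_inr]
    have h1 := hle1 m hm
    have h2 := hle2 m hm
    have h3 : z i0 ^ c = z i0 ^ (c - d1 m) * z i0 ^ (d1 m) := by
      rw [← pow_add]
      congr 1
      omega
    have h4 : b j0 ^ d = b j0 ^ (d - d2 m) * b j0 ^ (d2 m) := by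
      rw [← pow_add]
      congr 1
      omega
    rw [h3, h4]
    have h5 : z i0 ^ d1 m ≠ 0 := pow_ne_zero _ hz
    have h6 : b j0 ^ d2 m ≠ 0 := pow_ne_zero _ hb
    simp only [inv_pow]
    field_simp
    simp only [hd1, hd2]

section

variable {K : Type} [Field K] [Algebra ℂ K] {z : Fin (N + 1) → K} {b : Fin (n + 1) → K}
  {t : Fin r → K} {X D : BiSet N n}

/-- the closed subvariety is invariant under a one-parameter subgroup of the torus -/
def Inv (X D : BiSet N n) (z : Fin (N + 1) → K) (b : Fin (n + 1) → K) (t : Fin r → K)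
    (c : Fin r → ℤ) : Prop :=
  ∀ u v s, InW X D z b t u v s → ∀ τ : ℂ, τ ≠ 0 → InW X D z b t u v (act c τ s)

/-- relations at the points of the variety -/
theorem InW.rel {u : Fin (N + 1) → ℂ} {v : Fin (n + 1) → ℂ} {s : Fin r → ℂ}
    (h : InW X D z b t u v s) {i0 : Fin (N + 1)} {j0 : Fin (n + 1)} (hi : z i0 ≠ 0)
    (hj : b j0 ≠ 0) (hu : u i0 = 1) (hv : v j0 = 1) {A : Tri N n r}
    (hA : evT (fun i => z i / z i0) (fun j => b j / b j0) t A = 0) : evT u v s A = 0 := by
  obtain ⟨P, c, d, hP, hPe⟩ := exists_homog A i0 j0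
  have h1 : evT z b t P = 0 := by rw [hPe K z b t hi hj, hA, mul_zero]
  have h2 := h.eq P hP h1
  have h3 := hPe ℂ u v s (by rw [hu]; exact one_ne_zero) (by rw [hv]; exact one_ne_zero)
  rw [h2, hu, hv, one_pow, one_pow, one_mul, one_mul] at h3
  have h4 : (fun i => u i / (1 : ℂ)) = u := funext fun i => div_one _
  have h5 : (fun j => v j / (1 : ℂ)) = v := funext fun j => div_one _
  rw [h4, h5] at h3
  exact h3.symm

/-- **Invariance.** The ideal of the generic point is homogeneous for the weights. -/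
theorem Inv.wcomp {w : ℕ} {c : Fin r → ℤ} (hc : Inv X D z b t c) (h : SubProd X D K w z b t)
    {i0 : Fin (N + 1)} {j0 : Fin (n + 1)} (hi : z i0 ≠ 0) (hj : b j0 ≠ 0) {A : Tri N n r}
    (hA : evT (fun i => z i / z i0) (fun j => b j / b j0) t A = 0) (k : ℤ) :
    evT (fun i => z i / z i0) (fun j => b j / b j0) t (wcomp c k A) = 0 := by
  by_contra hcon
  obtain ⟨u, v, s, h1, h2, h3, h4, -⟩ := h.special hi hj hcon
  exact h4 (wcomp_zero (fun τ hτ => (hc u v s h1 τ hτ).rel hi hj h2 h3 hA) k)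

/-- a variety is invariant if the ideal of the generic point is homogeneous -/
theorem Inv.of_wcomp {c : Fin r → ℤ} (h : ∀ P : Tri N n r, TriHom P → evT z b t P = 0 →
    ∀ k, evT z b t (TP.wcomp c k P) = 0) : Inv X D z b t c := by
  intro u v s hm τ hτ
  refine ⟨hm.mem, act_ne hτ hm.s0, fun P hP hP0 => ?_⟩
  rw [evT_act c hτ]
  refine Finset.sum_eq_zero fun k _ => ?_
  rw [hm.eq _ (hP.wcomp c k) (h P hP hP0 k), mul_zero]

/-- **Finitely many equations.** -/
theorem exists_fin (z : Fin (N + 1) → K) (b : Fin (n + 1) → K) (t : Fin r → K) :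
    ∃ T : Finset (Tri N n r), (∀ Q ∈ T, TriHom Q ∧ evT z b t Q = 0) ∧
      ∀ P : Tri N n r, TriHom P → evT z b t P = 0 → P ∈ Ideal.span (T : Set (Tri N n r)) := by
  classical
  set S : Set (Tri N n r) := {P | TriHom P ∧ evT z b t P = 0} with hS
  have hfg : (Ideal.span S).FG := IsNoetherian.noetherian _
  obtain ⟨T, hT, hT2⟩ := Submodule.fg_span_iff_fg_span_finset_subset S |>.mp hfg
  refine ⟨T, fun Q hQ => hT hQ, fun P hP hP0 => ?_⟩
  have h1 : P ∈ Ideal.span S := Ideal.subset_span ⟨hP, hP0⟩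
  have h2 : Ideal.span S = Ideal.span (T : Set (Tri N n r)) := hT2
  rw [← h2]
  exact h1

/-- it suffices to consider finitely many equations -/
theorem Inv.of_fin {c : Fin r → ℤ} {T : Finset (Tri N n r)}
    (hT : ∀ Q ∈ T, TriHom Q ∧ evT z b t Q = 0)
    (hT2 : ∀ P : Tri N n r, TriHom P → evT z b t P = 0 → P ∈ Ideal.span (T : Set (Tri N n r)))
    (h : ∀ Q ∈ T, ∀ k, evT z b t (TP.wcomp c k Q) = 0) : Inv X D z b t c := by
  intro u v s hm τ hτ
  refine ⟨hm.mem, act_ne hτ hm.s0, fun P hP hP0 => ?_⟩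
  have h1 := hT2 P hP hP0
  have h2 : Ideal.span (T : Set (Tri N n r)) ≤ RingHom.ker
      (aeval (Sum.elim (Sum.elim u v) (act c τ s)) : Tri N n r →ₐ[ℂ] ℂ) := by
    rw [Ideal.span_le]
    intro Q hQ
    change evT u v (act c τ s) Q = 0
    rw [evT_act c hτ]
    refine Finset.sum_eq_zero fun k _ => ?_
    rw [hm.eq _ ((hT Q hQ).1.wcomp c k) (h Q hQ k), mul_zero]
  exact h2 h1

end

end Pool.Agent.V8H90.TP
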